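import Mathlib.Topology.Compactification.OnePoint.Basic
import Mathlib.Topology.Separation.Profinite
import Mathlib.Topology.Connected.Separation
import Mathlib.Topology.Algebra.Monoid.Defs
import Mathlib.GroupTheory.Congruence.Basic
import Mathlib.Data.ZMod.Basic
import Mathlib.Data.Finsupp.Defs
import Mathlib.Algebra.Group.Finsupp

/-!
# MP_4caafd_al : ideally `C`-closed semigroups need not be projectively `C`-closed

For every class `C` of topological semigroups between `T_zS` and `T_1S`, we show that the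
semigroup `S = G × G × {0,1}` with `G` an infinite group of exponent two and
`(i,g,s)(j,h,t) = (i, g + s•j + h, t)` is ideally `C`-closed and not projectively `C`-closed.
-/

namespace Pool.Agent.Results.MP_4caafd_al.IdeallyNotProjectively

open Topology Filter

universe u

/-- A class of topological semigroups (a property of a type with a topology and a semigroup
structure). -/
abbrev TopSemigroupClass : Type (u + 1) :=
  ∀ (Y : Type u) (_ : TopologicalSpace Y) (_ : Semigroup Y), Prop

/-- The class `T₁S` of topological semigroups whose space is `T₁`. -/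
def T1S : TopSemigroupClass.{u} := fun Y _ _ => ContinuousMul Y ∧ T1Space Y

/-- The class `T_zS` of Hausdorff zero-dimensional topological semigroups. -/
def TzS : TopSemigroupClass.{u} := fun Y _ _ =>
  ContinuousMul Y ∧ T2Space Y ∧ TopologicalSpace.IsTopologicalBasis {s : Set Y | IsClopen s}

/-- `X` is `C`-closed: for every topological semigroup `Y` in the class `C` and every injective
homomorphism `h : X → Y` that is a topological embedding for the discrete topology on `X`, the
image of `h` is closed. -/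
def CClosed (C : TopSemigroupClass.{u}) (X : Type u) [Semigroup X] : Prop :=
  ∀ (Y : Type u) (tY : TopologicalSpace Y) (sY : Semigroup Y), C Y tY sY →
    ∀ h : X →ₙ* Y, Function.Injective h → @IsEmbedding X Y ⊥ tY h → IsClosed (Set.range h)

/-- Ideals of a semigroup (the empty set is allowed). -/
def IsIdeal {X : Type u} [Semigroup X] (I : Set X) : Prop :=
  ∀ x ∈ I, ∀ a : X, a * x ∈ I ∧ x * a ∈ I

/-- The Rees congruence of an ideal: `(I × I) ∪ {(x,x)}`. -/
def rees {X : Type u} [Semigroup X] (I : Set X) (hI : IsIdeal I) : Con X where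
  r x y := (x ∈ I ∧ y ∈ I) ∨ x = y
  iseqv := by
    refine ⟨fun _ => Or.inr rfl, ?_, ?_⟩
    · rintro x y (⟨h1, h2⟩ | h)
      · exact Or.inl ⟨h2, h1⟩
      · exact Or.inr h.symm
    · rintro x y z (⟨h1, h2⟩ | h) (⟨h3, h4⟩ | h')
      · exact Or.inl ⟨h1, h4⟩
      · exact Or.inl ⟨h1, h' ▸ h2⟩
      · exact Or.inl ⟨h ▸ h3, h4⟩
      · exact Or.inr (h.trans h')
  mul' := by
    rintro w x y z (⟨h1, h2⟩ | h) (⟨h3, h4⟩ | h')
    · exact Or.inl ⟨(hI _ h1 _).2, (hI _ h2 _).2⟩
    · exact Or.inl ⟨(hI _ h1 _).2, (hI _ h2 _).2⟩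
    · exact Or.inl ⟨(hI _ h3 _).1, (hI _ h4 _).1⟩
    · exact Or.inr (by rw [h, h'])

/-- `X` is projectively `C`-closed: all quotients by congruences are `C`-closed. -/
def ProjectivelyCClosed (C : TopSemigroupClass.{u}) (X : Type u) [Semigroup X] : Prop :=
  ∀ c : Con X, CClosed C c.Quotient

/-- `X` is ideally `C`-closed: all quotients `X/I` by ideals are `C`-closed. -/
def IdeallyCClosed (C : TopSemigroupClass.{u}) (X : Type u) [Semigroup X] : Prop :=
  ∀ (I : Set X) (hI : IsIdeal I), CClosed C (rees I hI).Quotient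

/-! ### The example -/

/-- An infinite group of exponent two. -/
abbrev G : Type u := ULift.{u} ℕ →₀ ZMod 2

theorem G_add_self (g : G.{u}) : g + g = 0 := by
  ext n
  rw [Finsupp.add_apply, Finsupp.zero_apply]
  exact CharTwo.add_self_eq_zero _

theorem G_eq_of_add (g h : G.{u}) (e : g + h = 0) : g = h := by
  have := G_add_self h
  rw [← this] at e
  exact add_right_cancel e

/-- The semigroup `S`. -/
@[ext] structure S : Type u where
  i : G.{u}
  g : G.{u}
  s : Bool

/-- `s • j` for a bit `s`. -/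
noncomputable def sm (s : Bool) (j : G.{u}) : G.{u} := if s then j else 0

noncomputable instance : Semigroup S.{u} where
  mul x y := ⟨x.i, x.g + sm x.s y.i + y.g, y.s⟩
  mul_assoc x y z := by
    show (⟨x.i, (x.g + sm x.s y.i + y.g) + sm y.s z.i + z.g, z.s⟩ : S.{u}) =
      ⟨x.i, x.g + sm x.s y.i + (y.g + sm y.s z.i + z.g), z.s⟩
    rw [S.mk.injEq]
    exact ⟨rfl, by simp only [add_assoc], rfl⟩

theorem mul_def (x y : S.{u}) : x * y = ⟨x.i, x.g + sm x.s y.i + y.g, y.s⟩ := rfl

/-- the elements `(0,0,t)` -/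
def a (t : Bool) : S.{u} := ⟨0, 0, t⟩

/-- the elements `(0,g,0)` -/
def hh (g : G.{u}) : S.{u} := ⟨0, g, false⟩

theorem a0xa0 (x : S.{u}) : a false * x * a false = hh x.g := by
  simp [mul_def, a, hh, sm]

theorem a1xa0 (x : S.{u}) : a true * x * a false = hh (x.i + x.g) := by
  simp [mul_def, a, hh, sm]

theorem hh_mul (g h : G.{u}) : hh g * hh h = hh (g + h) := by
  simp [mul_def, hh, sm]

/-- the only ideals are the empty set and the whole semigroup -/
theorem ideal_trivial (I : Set S.{u}) (hI : IsIdeal I) : I = ∅ ∨ I = Set.univ := by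
  rcases I.eq_empty_or_nonempty with h | ⟨x, hx⟩
  · exact Or.inl h
  · right
    ext y
    refine ⟨fun _ => trivial, fun _ => ?_⟩
    have h1 := (hI _ (hI x hx ⟨y.i, y.g - x.g, false⟩).1 ⟨0, 0, y.s⟩).2
    have h2 : (⟨y.i, y.g - x.g, false⟩ : S.{u}) * x * ⟨0, 0, y.s⟩ = y := by
      apply S.ext <;> simp [mul_def, sm]
    rwa [h2] at h1

/-- Key lemma: if `h : S → Y` is a homomorphism into a `T₁` topological semigroup which is an
embedding of the discrete space `S`, `F` is a filter on `S` along which `h` converges, and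
`φ : S → G` is such that `x ↦ h (hh (φ x))` converges along `F`, then `φ` is constant on a set
of `F`. -/
theorem key {Y : Type u} [TopologicalSpace Y] [Semigroup Y] [ContinuousMul Y] [T1Space Y]
    (h : S.{u} →ₙ* Y) (he : @IsEmbedding S.{u} Y ⊥ _ h) (F : Filter S.{u}) [F.NeBot]
    (φ : S.{u} → G.{u}) (z : Y) (hz : Tendsto (fun x => h (hh (φ x))) F (𝓝 z)) :
    ∃ A ∈ F, ∀ x ∈ A, ∀ y ∈ A, φ x = φ y := by
  -- `z * z = h (hh 0)`
  have h1 : Tendsto (fun x => h (hh (φ x)) * h (hh (φ x))) F (𝓝 (z * z)) := hz.mul hz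
  have h2 : (fun x => h (hh (φ x)) * h (hh (φ x))) = fun _ => h (hh 0) := by
    funext x
    rw [← map_mul, hh_mul, G_add_self]
  rw [h2, tendsto_const_nhds_iff] at h1
  -- a neighbourhood of `h (hh 0)` that meets the image only there
  obtain ⟨U, hU, hUe⟩ : ∃ U : Set Y, IsOpen U ∧ h ⁻¹' U = {hh 0} := by
    let _ : TopologicalSpace S.{u} := ⊥
    have : DiscreteTopology S.{u} := ⟨rfl⟩
    exact he.isInducing.isOpen_iff.1 (isOpen_discrete ({hh 0} : Set S.{u}))
  have h0U : h (hh 0) ∈ U := by
    have : hh 0 ∈ h ⁻¹' U := by rw [hUe]; rfl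
    exact this
  have h3 : Tendsto (fun p : S.{u} × S.{u} => h (hh (φ p.1)) * h (hh (φ p.2))) (F ×ˢ F)
      (𝓝 (z * z)) := (hz.comp tendsto_fst).mul (hz.comp tendsto_snd)
  have h4 : ∀ᶠ p : S.{u} × S.{u} in F ×ˢ F, h (hh (φ p.1)) * h (hh (φ p.2)) ∈ U :=
    h3 (hU.mem_nhds (h1 ▸ h0U))
  obtain ⟨A, hA, hA2⟩ := mem_prod_same_iff.1 h4
  refine ⟨A, hA, fun x hx y hy => ?_⟩
  have h5 : h (hh (φ x)) * h (hh (φ y)) ∈ U := hA2 (Set.mk_mem_prod hx hy)
  rw [← map_mul, hh_mul] at h5
  have h6 : hh (φ x + φ y) ∈ h ⁻¹' U := h5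
  rw [hUe] at h6
  have h7 : φ x + φ y = 0 := congrArg S.g h6
  exact G_eq_of_add _ _ h7

/-- `S` is closed in every `T₁` topological semigroup containing it as a discrete subsemigroup. -/
theorem S_closed {Y : Type u} [TopologicalSpace Y] [Semigroup Y] [ContinuousMul Y] [T1Space Y]
    (h : S.{u} →ₙ* Y) (he : @IsEmbedding S.{u} Y ⊥ _ h) : IsClosed (Set.range h) := by
  rw [← closure_subset_iff_isClosed]
  intro y hy
  let F : Filter S.{u} := comap h (𝓝 y)
  have : F.NeBot := by
    rw [mem_closure_iff_comap_neBot] at hy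
    rw [comap_neBot_iff]
    intro t ht
    obtain ⟨⟨_, x, rfl⟩, hx⟩ := (comap_neBot_iff.1 hy) t ht
    exact ⟨x, hx⟩
  have hF : Tendsto h F (𝓝 y) := tendsto_comap
  have hg : Tendsto (fun x => h (hh x.g)) F (𝓝 (h (a false) * y * h (a false))) := by
    have := (tendsto_const_nhds (x := h (a false)) (f := F)).mul hF
    have := this.mul (tendsto_const_nhds (x := h (a false)) (f := F))
    refine this.congr (fun x => ?_)
    rw [← map_mul, ← map_mul, a0xa0]
  have hi : Tendsto (fun x => h (hh (x.i + x.g))) F (𝓝 (h (a true) * y * h (a false))) := by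
    have := (tendsto_const_nhds (x := h (a true)) (f := F)).mul hF
    have := this.mul (tendsto_const_nhds (x := h (a false)) (f := F))
    refine this.congr (fun x => ?_)
    rw [← map_mul, ← map_mul, a1xa0]
  obtain ⟨A, hA, hA2⟩ := key h he F (fun x => x.g) _ hg
  obtain ⟨B, hB, hB2⟩ := key h he F (fun x => x.i + x.g) _ hi
  obtain ⟨x, hxA, hxB⟩ := F.nonempty_of_mem (inter_mem hA hB)
  have hsub : A ∩ B ⊆ {(⟨x.i, x.g, false⟩ : S.{u}), ⟨x.i, x.g, true⟩} := by
    rintro w ⟨hwA, hwB⟩
    have e1 : w.g = x.g := hA2 w hwA x hxA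
    have e2 : w.i + w.g = x.i + x.g := hB2 w hwB x hxB
    have e3 : w.i = x.i := by rw [e1] at e2; exact add_right_cancel e2
    obtain ⟨i, g, s⟩ := w
    cases s
    · left; rw [S.mk.injEq]; exact ⟨e3, e1, rfl⟩
    · right; show _ = _; rw [S.mk.injEq]; exact ⟨e3, e1, rfl⟩
  set P : Set S.{u} := {(⟨x.i, x.g, false⟩ : S.{u}), ⟨x.i, x.g, true⟩} with hP
  have hPF : P ∈ F := mem_of_superset (inter_mem hA hB) hsub
  have hPfin : P.Finite := by rw [hP]; exact (Set.finite_singleton _).insert _
  have hcl : IsClosed (h '' P) := (hPfin.image h).isClosed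
  have hy2 : y ∈ h '' P := by
    refine hcl.mem_of_tendsto hF ?_
    filter_upwards [hPF] with w hw
    exact ⟨w, hw, rfl⟩
  exact Set.image_subset_range _ _ hy2

theorem S_ideally (C : TopSemigroupClass.{u}) (hC : ∀ Y tY sY, C Y tY sY → T1S Y tY sY) :
    IdeallyCClosed C S.{u} := by
  intro I hI Y tY sY hY h hinj he
  obtain ⟨hcm, ht1⟩ := hC Y tY sY hY
  rcases ideal_trivial I hI with rfl | rfl
  · -- the quotient is `S` itself
    let π : S.{u} →ₙ* (rees (∅ : Set S.{u}) hI).Quotient := (rees (∅ : Set S.{u}) hI).mkMulHom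
    have hsurj : Function.Surjective π := fun q => by
      induction q using Con.induction_on with
      | H x => exact ⟨x, rfl⟩
    have hinjπ : Function.Injective π := by
      intro x y hxy
      have h1 : (rees (∅ : Set S.{u}) hI) x y := (Con.eq _).1 hxy
      rcases h1 with ⟨h1, _⟩ | h1
      · exact absurd h1 (Set.notMem_empty _)
      · exact h1
    have hπ : @IsEmbedding S.{u} _ ⊥ ⊥ π := by
      let _ : TopologicalSpace S.{u} := ⊥
      let _ : TopologicalSpace (rees (∅ : Set S.{u}) hI).Quotient := ⊥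
      have : DiscreteTopology S.{u} := ⟨rfl⟩
      have : DiscreteTopology (rees (∅ : Set S.{u}) hI).Quotient := ⟨rfl⟩
      exact ((Equiv.ofBijective π ⟨hinjπ, hsurj⟩).toHomeomorphOfDiscrete).isEmbedding
    have hcomp : @IsEmbedding S.{u} Y ⊥ _ (h.comp π) := by
      let _ : TopologicalSpace S.{u} := ⊥
      let _ : TopologicalSpace (rees (∅ : Set S.{u}) hI).Quotient := ⊥
      exact he.comp hπ
    have hcl := S_closed (h.comp π) hcomp
    have hr : Set.range (h.comp π) = Set.range h := by
      rw [MulHom.coe_comp, Set.range_comp, hsurj.range_eq, Set.image_univ]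
    rwa [hr] at hcl
  · -- the quotient is trivial
    have hsub : (Set.range h).Subsingleton := by
      rintro _ ⟨p, rfl⟩ _ ⟨q, rfl⟩
      induction p using Con.induction_on with
      | H x =>
        induction q using Con.induction_on with
        | H y =>
          have : ((x : (rees (Set.univ : Set S.{u}) hI).Quotient)) = y :=
            (Con.eq _).2 (Or.inl ⟨trivial, trivial⟩)
          rw [this]
    exact hsub.isClosed

/-- The congruence of having equal first coordinates. -/
def cc : Con S.{u} where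
  r x y := x.i = y.i
  iseqv := ⟨fun _ => rfl, fun h => h.symm, fun h1 h2 => h1.trans h2⟩
  mul' h _ := h

theorem cc_left_zero (p q : cc.{u}.Quotient) : p * q = p := by
  induction p using Con.induction_on with
  | H x =>
    induction q using Con.induction_on with
    | H y => exact (Con.eq _).2 rfl

instance cc_infinite : Infinite cc.{u}.Quotient := by
  have : Infinite G.{u} :=
    Infinite.of_injective _ (Finsupp.single_left_injective (one_ne_zero (α := ZMod 2)))
  refine Infinite.of_injective (fun g : G.{u} => ((⟨g, 0, false⟩ : S.{u}) : cc.{u}.Quotient)) ?_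
  intro g g' h
  have h1 : cc.{u} (⟨g, 0, false⟩ : S.{u}) ⟨g', 0, false⟩ := (Con.eq _).1 h
  exact h1

theorem not_closed (C : TopSemigroupClass.{u}) (hC : ∀ Y tY sY, TzS Y tY sY → C Y tY sY) :
    ¬ CClosed C cc.{u}.Quotient := by
  intro hcl
  let _ : TopologicalSpace cc.{u}.Quotient := ⊥
  have : DiscreteTopology cc.{u}.Quotient := ⟨rfl⟩
  let _ : Semigroup (OnePoint cc.{u}.Quotient) :=
    { mul := fun x _ => x
      mul_assoc := fun _ _ _ => rfl }
  have hcm : ContinuousMul (OnePoint cc.{u}.Quotient) := ⟨continuous_fst⟩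
  let h : cc.{u}.Quotient →ₙ* OnePoint cc.{u}.Quotient :=
    { toFun := fun x => (x : OnePoint cc.{u}.Quotient)
      map_mul' := fun p q => by
        show ((p * q : cc.{u}.Quotient) : OnePoint cc.{u}.Quotient) = (p : OnePoint cc.{u}.Quotient)
        rw [cc_left_zero] }
  have h1 := hcl (OnePoint cc.{u}.Quotient) _ _
    (hC _ _ _ ⟨hcm, inferInstance, isTopologicalBasis_isClopen⟩) h OnePoint.coe_injective
    OnePoint.isOpenEmbedding_coe.isEmbedding
  have hnc : NoncompactSpace cc.{u}.Quotient :=
    not_compactSpace_iff.1 fun _ =>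
      not_finite_iff_infinite.2 cc_infinite.{u} finite_of_compact_of_discrete
  have h2 : DenseRange h := OnePoint.denseRange_coe
  have h3 : Set.range h = Set.univ := by
    rw [← h1.closure_eq]
    exact h2.closure_range
  have h4 : (OnePoint.infty : OnePoint cc.{u}.Quotient) ∈ Set.range h := by rw [h3]; trivial
  exact OnePoint.infty_notMem_range_coe h4

/-- There is a semigroup `S` such that for every class `C` of topological semigroups with
`T_zS ⊆ C ⊆ T₁S`, the semigroup `S` is ideally `C`-closed but not projectively `C`-closed. -/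
theorem result :
    ∃ (X : Type u) (_ : Semigroup X), ∀ C : TopSemigroupClass.{u},
      (∀ Y tY sY, TzS Y tY sY → C Y tY sY) → (∀ Y tY sY, C Y tY sY → T1S Y tY sY) →
      IdeallyCClosed C X ∧ ¬ ProjectivelyCClosed C X :=
  ⟨S.{u}, inferInstance, fun C h1 h2 => ⟨S_ideally C h2, fun h => not_closed C h1 (h cc)⟩⟩

end Pool.Agent.Results.MP_4caafd_al.IdeallyNotProjectively
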